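import Pool.Agent.Y990.CB.Stm3
import Pool.Agent.Y990.CB.Basic

set_option autoImplicit false

open MeasureTheory Set

/-!
Job CB-MLLN (project CB of helper990): law of large numbers for vertices with arms (Chebyshev).
-/

namespace Pool.Agent.Y833.CB2

open Pool.Agent.Y990.CB
open Pool.Agent.W783.PC (pm DepOn Inc)

noncomputable section

lemma ind_int {Ω : Type} [MeasurableSpace Ω] (μ : Measure Ω) [IsProbabilityMeasure μ]
    {A : Set Ω} (hA : MeasurableSet A) : Integrable (A.indicator (1 : Ω → ℝ)) μ :=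
  (integrable_const (1 : ℝ)).indicator hA

lemma ind_mul_int {Ω : Type} [MeasurableSpace Ω] (μ : Measure Ω) [IsProbabilityMeasure μ]
    {A B : Set Ω} (hA : MeasurableSet A) (hB : MeasurableSet B) :
    Integrable (fun ω => A.indicator (1 : Ω → ℝ) ω * B.indicator (1 : Ω → ℝ) ω) μ := by
  have h : (fun ω => A.indicator (1 : Ω → ℝ) ω * B.indicator (1 : Ω → ℝ) ω) =
      (A ∩ B).indicator (1 : Ω → ℝ) := by
    rw [Set.inter_indicator_one]
    rfl
  rw [h]
  exact ind_int μ (hA.inter hB)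

lemma integral_ind_mul {Ω : Type} [MeasurableSpace Ω] (μ : Measure Ω) [IsProbabilityMeasure μ]
    {A B : Set Ω} (hA : MeasurableSet A) (hB : MeasurableSet B) :
    ∫ ω, A.indicator (1 : Ω → ℝ) ω * B.indicator (1 : Ω → ℝ) ω ∂μ = μ.real (A ∩ B) := by
  have h : (fun ω => A.indicator (1 : Ω → ℝ) ω * B.indicator (1 : Ω → ℝ) ω) =
      (A ∩ B).indicator (1 : Ω → ℝ) := by
    rw [Set.inter_indicator_one]
    rfl
  rw [h, integral_indicator_one (hA.inter hB)]

/-- Chebyshev's inequality for a sum of indicators with few dependent pairs. -/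
theorem cheb {Ω ι : Type} [MeasurableSpace Ω] (μ : Measure Ω) [IsProbabilityMeasure μ]
    (Λ : Finset ι) (Y : ι → Set Ω) (q D η : ℝ) (near : ι → Finset ι)
    (hY : ∀ x, MeasurableSet (Y x)) (hη : 0 < η) (hq : ∀ x ∈ Λ, μ.real (Y x) = q)
    (hD : ∀ x ∈ Λ, ((near x).card : ℝ) ≤ D) (hΛ : Λ.Nonempty)
    (hind : ∀ x ∈ Λ, ∀ x' ∈ Λ, x' ∉ near x → μ.real (Y x ∩ Y x') = q ^ 2) :
    μ.real {ω | (q + η) * Λ.card ≤ ∑ x ∈ Λ, (Y x).indicator (1 : Ω → ℝ) ω} ≤
      D / (η ^ 2 * Λ.card) := by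
  classical
  have hn : (0 : ℝ) < Λ.card := by exact_mod_cast hΛ.card_pos
  set c : ℝ := Λ.card * q with hc
  set V : ℝ := Λ.card * D with hV
  set f : ι → Ω → ℝ := fun x => (Y x).indicator 1 with hf
  have hfi : ∀ x, Integrable (f x) μ := fun x => ind_int μ (hY x)
  have hfe : ∀ x, ∫ ω, f x ω ∂μ = μ.real (Y x) := fun x => integral_indicator_one (hY x)
  have hsq : ∀ ω, (∑ x ∈ Λ, f x ω - c) ^ 2 =
      (∑ x ∈ Λ, ∑ x' ∈ Λ, f x ω * f x' ω) - 2 * c * (∑ x ∈ Λ, f x ω) + c ^ 2 := by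
    intro ω
    rw [sub_sq, sq (∑ x ∈ Λ, f x ω), Finset.sum_mul_sum]
    ring
  have hi1 : Integrable (fun ω => ∑ x ∈ Λ, ∑ x' ∈ Λ, f x ω * f x' ω) μ :=
    integrable_finsetSum _ fun x _ => integrable_finsetSum _ fun x' _ =>
      ind_mul_int μ (hY x) (hY x')
  have hi2 : Integrable (fun ω => ∑ x ∈ Λ, f x ω) μ :=
    integrable_finsetSum _ fun x _ => hfi x
  have hi3 : Integrable (fun ω => (∑ x ∈ Λ, f x ω - c) ^ 2) μ := by
    simp only [hsq]
    exact (hi1.sub (hi2.const_mul _)).add (integrable_const _)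
  have hvar : ∫ ω, (∑ x ∈ Λ, f x ω - c) ^ 2 ∂μ ≤ V := by
    have e1 : ∫ ω, (∑ x ∈ Λ, f x ω - c) ^ 2 ∂μ =
        (∑ x ∈ Λ, ∑ x' ∈ Λ, μ.real (Y x ∩ Y x')) - 2 * c * (∑ x ∈ Λ, μ.real (Y x)) + c ^ 2 := by
      simp only [hsq]
      have hi7 : Integrable (fun ω => 2 * c * ∑ x ∈ Λ, f x ω) μ := hi2.const_mul _
      have hi6 : Integrable (fun ω => (∑ x ∈ Λ, ∑ x' ∈ Λ, f x ω * f x' ω) -
          2 * c * ∑ x ∈ Λ, f x ω) μ := hi1.sub hi7
      rw [integral_add hi6 (integrable_const _),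
        integral_sub hi1 hi7, integral_const_mul,
        integral_finsetSum _ (fun x _ => integrable_finsetSum _ fun x' _ =>
          ind_mul_int μ (hY x) (hY x')), integral_finsetSum _ (fun x _ => hfi x)]
      simp only [hfe, integral_const, probReal_univ, smul_eq_mul, one_mul]
      congr 2
      refine Finset.sum_congr rfl fun x _ => ?_
      rw [integral_finsetSum _ (fun x' _ => ind_mul_int μ (hY x) (hY x'))]
      exact Finset.sum_congr rfl fun x' _ => integral_ind_mul μ (hY x) (hY x')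
    have e2 : ∑ x ∈ Λ, μ.real (Y x) = c := by
      rw [Finset.sum_congr rfl hq, Finset.sum_const, nsmul_eq_mul]
    have e3 : ∑ x ∈ Λ, ∑ x' ∈ Λ, μ.real (Y x ∩ Y x') ≤ V + c ^ 2 := by
      have : ∀ x ∈ Λ, ∑ x' ∈ Λ, μ.real (Y x ∩ Y x') ≤ D + Λ.card * q ^ 2 := by
        intro x hx
        have h1 : ∀ x' ∈ Λ, μ.real (Y x ∩ Y x') ≤ (if x' ∈ near x then (1 : ℝ) else 0) + q ^ 2 := by
          intro x' hx'
          split_ifs with hn
          · have := measureReal_le_one (μ := μ) (s := Y x ∩ Y x')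
            have := sq_nonneg q
            linarith
          · rw [hind x hx x' hx' hn, zero_add]
        refine (Finset.sum_le_sum h1).trans ?_
        rw [Finset.sum_add_distrib, Finset.sum_const, nsmul_eq_mul, Finset.sum_boole]
        have h2 : ((Λ.filter (fun x' => x' ∈ near x)).card : ℝ) ≤ (near x).card := by
          exact_mod_cast Finset.card_le_card (fun y hy => (Finset.mem_filter.1 hy).2)
        have := hD x hx
        linarith
      refine (Finset.sum_le_sum this).trans ?_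
      rw [Finset.sum_const, nsmul_eq_mul, hV, hc]
      apply le_of_eq
      ring
    rw [e1, e2]
    nlinarith
  -- Markov
  have hmk := mul_meas_ge_le_integral_of_nonneg (μ := μ)
    (f := fun ω => (∑ x ∈ Λ, f x ω - c) ^ 2)
    (Filter.Eventually.of_forall (fun ω => sq_nonneg _)) hi3 ((η * Λ.card) ^ 2)
  have hsub : {ω | (q + η) * Λ.card ≤ ∑ x ∈ Λ, (Y x).indicator (1 : Ω → ℝ) ω} ⊆
      {ω | (η * Λ.card) ^ 2 ≤ (∑ x ∈ Λ, f x ω - c) ^ 2} := by
    intro ω hω
    have h1 : (q + η) * Λ.card ≤ ∑ x ∈ Λ, f x ω := hω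
    have h2 : η * Λ.card ≤ ∑ x ∈ Λ, f x ω - c := by
      rw [hc]
      linarith
    exact pow_le_pow_left₀ (by positivity) h2 2
  have h3 : μ.real {ω | (q + η) * Λ.card ≤ ∑ x ∈ Λ, (Y x).indicator (1 : Ω → ℝ) ω} ≤
      μ.real {ω | (η * Λ.card) ^ 2 ≤ (∑ x ∈ Λ, f x ω - c) ^ 2} := measureReal_mono hsub
  rw [le_div_iff₀ (by positivity)]
  have h4 : 0 < (Λ.card : ℝ) := hn
  have h5 : (η * Λ.card) ^ 2 * μ.real {ω | (q + η) * Λ.card ≤
      ∑ x ∈ Λ, (Y x).indicator (1 : Ω → ℝ) ω} ≤ Λ.card * D := by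
    calc _ ≤ (η * Λ.card) ^ 2 * μ.real {ω | (η * Λ.card) ^ 2 ≤ (∑ x ∈ Λ, f x ω - c) ^ 2} := by
          gcongr
      _ ≤ _ := hmk
      _ ≤ V := hvar
  have h6 : (Λ.card : ℝ) * (μ.real {ω | (q + η) * Λ.card ≤
      ∑ x ∈ Λ, (Y x).indicator (1 : Ω → ℝ) ω} * (η ^ 2 * Λ.card)) ≤ Λ.card * D := by
    calc _ = (η * Λ.card) ^ 2 * μ.real {ω | (q + η) * Λ.card ≤
          ∑ x ∈ Λ, (Y x).indicator (1 : Ω → ℝ) ω} := by ring
      _ ≤ _ := h5
  exact le_of_mul_le_mul_left h6 h4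

lemma disj_Bo {d : ℕ} {x y : Z d} {m : ℕ} (h : y ∉ Bo x (2 * m)) : Disjoint (Bo x m) (Bo y m) := by
  rw [Set.disjoint_left]
  intro z hz hz'
  apply h
  intro i
  have h1 := abs_le.1 (hz i)
  have h2 := abs_le.1 (hz' i)
  rw [abs_le]
  push_cast
  constructor <;> linarith [h1.1, h1.2, h2.1, h2.2]

lemma indep_real {d : ℕ} (M : Mod d) (p : unitInterval) {A B : Set (M.ι → Bool)} {R R' : Set (Z d)}
    (hA : DepOn A (In M R)) (hB : DepOn B (In M R')) (hR : Disjoint R R')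
    (hAm : MeasurableSet A) (hBm : MeasurableSet B) :
    (mu M p).real (A ∩ B) = (mu M p).real A * (mu M p).real B := by
  have := Pool.Agent.W45.PC.s_indep M.ι (fun _ => p) (In M R) (In M R') A B hA hB (In_disj M hR)
    hAm hBm
  unfold mu
  rw [Measure.real, this, ENNReal.toReal_mul]
  rfl

theorem mlln : S_mlln := by
  classical
  intro d M p m N z η hη
  set θ : ℝ := (mu M p).real {ω | Am M ω 0 m 0} with hθ
  set Y : Z d → Set (M.ι → Bool) := fun x => {ω | Am M ω x m x} with hY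
  have hYm : ∀ x, MeasurableSet (Y x) := fun x => Am_meas M x m x
  have hYr : ∀ x : Z d, (mu M p).real (Y x) = θ := by
    intro x
    have := Am_shift M p 0 x 0 m
    rwa [zero_add] at this
  have key := cheb (mu M p) (Bf z N) Y θ ((4 * m + 1 : ℕ) ^ d) η (fun x => Bf x (2 * m)) hYm hη
    (fun x _ => hYr x) ?_ ⟨z, mem_Bf.2 (self_mem_Bo z N)⟩ ?_
  · have hcard : ((Bf z N).card : ℝ) = ((2 * N + 1 : ℕ) : ℝ) ^ d := by
      rw [card_Bf]; push_cast; ring
    rw [hcard] at key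
    have hX : ∀ ω, (Xc M ω m N z : ℝ) = ∑ x ∈ Bf z N, (Y x).indicator (1 : (M.ι → Bool) → ℝ) ω := by
      intro ω
      unfold Xc
      have h1 : {x | x ∈ Bo z N ∧ Am M ω x m x} =
          ((Bf z N).filter (fun x => Am M ω x m x) : Set (Z d)) := by
        ext x
        simp only [Finset.coe_filter, Set.mem_setOf_eq, mem_Bf]
      rw [h1, Set.ncard_coe_finset, Finset.card_filter]
      push_cast
      apply Finset.sum_congr rfl
      intro x _
      rw [Set.indicator_apply]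
      rfl
    simp only [hX]
    exact key
  · intro x _
    rw [card_Bf]
    push_cast
    ring_nf
    exact le_rfl
  · intro x _ x' _ hn
    have hn' : x' ∉ Bo x (2 * m) := fun h => hn (mem_Bf.2 h)
    rw [indep_real M p (Am_dep M x m x) (Am_dep M x' m x') (disj_Bo hn') (hYm x) (hYm x'),
      hYr x, hYr x', sq]

end

end Pool.Agent.Y833.CB2
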